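import Mathlib
import Pool.Agent.R953.QP12

/-!
# MP_8d4b21_pr, Q2: the stationary measures of a symmetric quasi-periodic walk are mixing

For every irrational `α` (Diophantine or Liouville), every symmetric `C¹` function
`p : 𝕋 → (0, 1)` and every stationary probability measure `ν` of the chain on the circle which
jumps from `y` to `y + α` with probability `p y` and to `y - α` with probability `1 - p y`, the
stationary chain with initial law `ν` is mixing for the time shift on path space.
-/

set_option autoImplicit false

open MeasureTheory ProbabilityTheory Filter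
open scoped ENNReal Topology

namespace Pool.Agent.Results.MP_8d4b21_pr.StationaryMixing

/-- `p` takes its values in `(0, 1)` and is continuously differentiable, i.e. its lift to the real
line is. -/
structure IsEnvironment (p : UnitAddCircle → ℝ) : Prop where
  pos : ∀ y, 0 < p y
  lt_one : ∀ y, p y < 1
  contDiff : ContDiff ℝ 1 (fun x : ℝ => p (x : UnitAddCircle))

/-- The walk is symmetric: the integrals of `log p` and of `log (1 - p)` over the circle are
equal. -/
def IsSymmetric (p : UnitAddCircle → ℝ) : Prop :=
  ∫ y : UnitAddCircle, Real.log (p y) = ∫ y : UnitAddCircle, Real.log (1 - p y)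

lemma IsEnvironment.measurable {p : UnitAddCircle → ℝ} (hp : IsEnvironment p) : Measurable p :=
  (Pool.Agent.R953.QP.cont_of_contDiff hp.contDiff).measurable

/-- The transition kernel: from `y` the chain jumps to `y + α` with probability `p y` and to
`y - α` with probability `1 - p y`. -/
noncomputable def kernel (α : ℝ) {p : UnitAddCircle → ℝ} (hp : IsEnvironment p) :
    Kernel UnitAddCircle UnitAddCircle where
  toFun y := ENNReal.ofReal (p y) • Measure.dirac (y + (α : UnitAddCircle))
    + ENNReal.ofReal (1 - p y) • Measure.dirac (y - (α : UnitAddCircle))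
  measurable' := (Pool.Agent.R953.QP.kern (α : UnitAddCircle) p hp.measurable).measurable'

instance (α : ℝ) {p : UnitAddCircle → ℝ} (hp : IsEnvironment p) : IsMarkovKernel (kernel α hp) :=
  Pool.Agent.R953.QP.kern_markov (α : UnitAddCircle) hp.measurable hp.pos hp.lt_one

/-- `ν` is a stationary probability measure of the chain. -/
def IsStationary (α : ℝ) (p : UnitAddCircle → ℝ) (ν : Measure UnitAddCircle) : Prop :=
  IsProbabilityMeasure ν ∧
    ∀ φ : UnitAddCircle → ℝ, Continuous φ →
      ∫ y, (p y * φ (y + (α : UnitAddCircle)) + (1 - p y) * φ (y - (α : UnitAddCircle))) ∂ν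
        = ∫ y, φ y ∂ν

/-- The law on path space of the Markov chain with initial law `ν` (Ionescu-Tulcea): given
`x 0, …, x n`, the next point `x (n + 1)` has law `kernel α hp (x n)`. -/
noncomputable def chainLaw (α : ℝ) {p : UnitAddCircle → ℝ} (hp : IsEnvironment p)
    (ν : Measure UnitAddCircle) : Measure (ℕ → UnitAddCircle) :=
  Kernel.trajMeasure (X := fun _ => UnitAddCircle) ν
    (fun n => (kernel α hp).comap (fun x : (Π _ : Finset.Iic n, UnitAddCircle) => x ⟨n, by simp⟩)
      (measurable_pi_apply _))

/-- The time shift on path space. -/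
def shift (x : ℕ → UnitAddCircle) : ℕ → UnitAddCircle := fun n => x (n + 1)

/-- The probability measure `μ` on path space is shift invariant and mixing for the shift. -/
def IsMixing (μ : Measure (ℕ → UnitAddCircle)) : Prop :=
  MeasurePreserving shift μ μ ∧
    ∀ A B : Set (ℕ → UnitAddCircle), MeasurableSet A → MeasurableSet B →
      Tendsto (fun n : ℕ => μ (A ∩ shift^[n] ⁻¹' B)) atTop (𝓝 (μ A * μ B))

lemma shift_iter (n : ℕ) : shift^[n] = Pool.Agent.R953.QP.sh n := by
  induction n with
  | zero => funext x i; simp [Pool.Agent.R953.QP.sh]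
  | succ n ih =>
    funext x i
    rw [Function.iterate_succ_apply, ih]
    simp only [Pool.Agent.R953.QP.sh, shift]
    congr 1
    ring

/-- Every stationary probability measure of a symmetric quasi-periodic walk is mixing. -/
theorem result (α : ℝ) (hα : Irrational α) (p : UnitAddCircle → ℝ) (hp : IsEnvironment p)
    (hsym : IsSymmetric p) (ν : Measure UnitAddCircle) (hν : IsStationary α p ν) :
    IsMixing (chainLaw α hp ν) := by
  have h1 : IsProbabilityMeasure ν := hν.1
  have hK : IsMarkovKernel (Pool.Agent.R953.QP.kern (α : UnitAddCircle) p hp.measurable) :=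
    Pool.Agent.R953.QP.kern_markov (α : UnitAddCircle) hp.measurable hp.pos hp.lt_one
  have hchain : Pool.Agent.R953.QP.IsChain (α : UnitAddCircle) p ν (chainLaw α hp ν) :=
    Pool.Agent.R953.QP.pathLaw_isChain (α : UnitAddCircle) hp.measurable
  have hprob := hchain.prob
  refine ⟨?_, fun A B hA hB => ?_⟩
  · have h2 := hchain.measurePreserving hp.contDiff hp.pos hp.lt_one hν.2 1
    rw [← shift_iter 1] at h2
    exact h2
  · have h2 := Pool.Agent.R953.QP.chain_mixing hα hp.contDiff hp.pos hp.lt_one hsym hν.2
      hchain hA hB
    have h3 := ENNReal.tendsto_ofReal h2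
    have e1 : ∀ n : ℕ, ENNReal.ofReal ((chainLaw α hp ν).real
        (A ∩ Pool.Agent.R953.QP.sh n ⁻¹' B)) = chainLaw α hp ν (A ∩ shift^[n] ⁻¹' B) := by
      intro n
      rw [shift_iter]
      exact ENNReal.ofReal_toReal (measure_ne_top _ _)
    have e2 : ENNReal.ofReal ((chainLaw α hp ν).real A * (chainLaw α hp ν).real B)
        = chainLaw α hp ν A * chainLaw α hp ν B := by
      rw [ENNReal.ofReal_mul measureReal_nonneg]
      congr 1
      · exact ENNReal.ofReal_toReal (measure_ne_top _ _)
      · exact ENNReal.ofReal_toReal (measure_ne_top _ _)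
    simp only [e1, e2] at h3
    exact h3

end Pool.Agent.Results.MP_8d4b21_pr.StationaryMixing
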