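import Mathlib
import Pool.Agent.R953.QP6

/-!
# MP_8d4b21_pr, Q1: the stationary measure of a symmetric quasi-periodic walk is unique

For every irrational `α` (Diophantine or Liouville) and every symmetric `C¹` function
`p : 𝕋 → (0, 1)` the chain on the circle which jumps from `y` to `y + α` with probability `p y`
and to `y - α` with probability `1 - p y` has exactly one stationary probability measure.
-/

set_option autoImplicit false

open MeasureTheory

namespace Pool.Agent.Results.MP_8d4b21_pr.UniqueStationary

/-- `p` takes its values in `(0, 1)` and is continuously differentiable, i.e. its lift to the real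
line is. -/
structure IsEnvironment (p : UnitAddCircle → ℝ) : Prop where
  pos : ∀ y, 0 < p y
  lt_one : ∀ y, p y < 1
  contDiff : ContDiff ℝ 1 (fun x : ℝ => p (x : UnitAddCircle))

/-- The walk is symmetric: the integrals of `log p` and of `log (1 - p)` over the circle are
equal. -/
def IsSymmetric (p : UnitAddCircle → ℝ) : Prop :=
  ∫ y : UnitAddCircle, Real.log (p y) = ∫ y : UnitAddCircle, Real.log (1 - p y)

/-- The transition operator. -/
noncomputable def P (α : ℝ) (p : UnitAddCircle → ℝ) (φ : UnitAddCircle → ℝ) : UnitAddCircle → ℝ :=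
  fun y => p y * φ (y + (α : UnitAddCircle)) + (1 - p y) * φ (y - (α : UnitAddCircle))

/-- `ν` is a stationary probability measure. -/
def IsStationary (α : ℝ) (p : UnitAddCircle → ℝ) (ν : Measure UnitAddCircle) : Prop :=
  IsProbabilityMeasure ν ∧
    ∀ φ : UnitAddCircle → ℝ, Continuous φ → ∫ y, P α p φ y ∂ν = ∫ y, φ y ∂ν

/-- For every irrational `α` and every symmetric environment `p` there is exactly one stationary
probability measure. -/
theorem result (α : ℝ) (hα : Irrational α) (p : UnitAddCircle → ℝ) (hp : IsEnvironment p)
    (hsym : IsSymmetric p) : ∃! ν : Measure UnitAddCircle, IsStationary α p ν := by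
  obtain ⟨ν, hν⟩ := Pool.Agent.R953.QP.stat_exists (α : UnitAddCircle)
    (Pool.Agent.R953.QP.cont_of_contDiff hp.contDiff) hp.pos hp.lt_one
  refine ⟨(ν : Measure UnitAddCircle), ⟨inferInstance, hν⟩, fun ν' hν' => ?_⟩
  have h1 : IsProbabilityMeasure ν' := hν'.1
  exact Pool.Agent.R953.QP.stat_unique hα hp.contDiff hp.pos hp.lt_one hsym hν'.2 hν

end Pool.Agent.Results.MP_8d4b21_pr.UniqueStationary
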